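import Pool.Agent.Helper59.PLG.Defs
import Pool.Agent.Helper77.PL.RareF

/-!
# Project PL, version 7 (MP_e66f84_ag), block RareG: the theorem in the absolute form
-/

set_option autoImplicit false

namespace Pool.Agent.PRG

open VC IntermediateField NumberField IsDedekindDomain Pool.Agent.SC Pool.Agent.Helper91.Sect
open Pool.Agent.L (L0 MM)
open Pool.Agent.LN (Geo Act GoodCurve)
open Pool.Agent.M (Moves OverPl inL0)
open Pool.Agent.ML (HasMu BPl GBr)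
open Pool.Agent.PDL (YL)
open Pool.Agent.PRL (TT AbE Four RtM)
open Filter

/-- `StmtRSG` for the covers with an action -/
def StmtRSG77 : Prop :=
  ∀ (k K0 E U : Type) [Field k] [NumberField k] [Field K0] [Field E] [Field U] [Algebra k K0]
    [Algebra k E] [Algebra E U] [Algebra K0 U] [Algebra k U] [IsScalarTower k E U]
    [IsScalarTower k K0 U] (ℓ : ℕ) (h : K0) (r : U), ℓ.Prime → HasMu k ℓ → Geo k K0 E U ℓ h r →
    ∀ (c₀ : k) (Φ₀ : (E ≃ₐ[k] E) →* (U ≃+* U)), c₀ ≠ 0 → Act (K0 := K0) ℓ r c₀ Φ₀ →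
    NdG k ℓ h → (∃ b : GBr k (AlgebraicClosure k) ℓ h, RatG b) →
    3 ≤ Nat.card {b : Place E (L0 E K0 (U := U)) // BPl ℓ h b} ∧
    (ℓ = 3 → 4 ≤ Nat.card {b : Place E (L0 E K0 (U := U)) // BPl ℓ h b}) ∧
    ∃ R : Finset (Place E (L0 E K0 (U := U))), PD.RatSet (k := k) ℓ h r R ∧
      ∀ b ∈ R, ∃ a : GBr k (AlgebraicClosure k) ℓ h, RatG a ∧
        ∀ x : K0, x ∈ a.P ↔ inL0 x ∈ b.ring

/-- a set without elements different from `0` is rare -/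
theorem rare_empty77 {k : Type} [Field k] [NumberField k] {ℓ : ℕ} {P : k → Prop}
    (h : ∀ c : k, c ≠ 0 → ¬ P c) : PD.Rare ℓ P := by
  intro ε hε
  refine Eventually.of_forall fun X T _ hT => ?_
  have h1 : T = ∅ := Finset.eq_empty_of_forall_notMem fun c hc => h c (hT c hc).1 (hT c hc).2.2
  rw [h1, Finset.card_empty, Nat.cast_zero]
  exact mul_nonneg hε.le (mul_nonneg (Nat.cast_nonneg X)
    (Real.rpow_nonneg (Real.log_natCast_nonneg X) _))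

/-- **BLOCK RareG.** -/
theorem rareG_of (hGEN : StmtGEN) (hGE2 : StmtGE2) (hFOUR : StmtFOUR) (hRSG : StmtRSG77)
    (hNOG : StmtNOG) (hTRG : StmtTRG) : StmtRareG := by
  intro k K0 _ _ _ _ ℓ h hℓ hmu hG hN
  obtain ⟨E, U, i1, i2, i3, i4, i5, i6, i7, i8, r, geo, hTr⟩ := hTRG k K0 ℓ h hℓ hG
  -- every section gives an action
  have hact : ∀ (N : ∀ (K : Type) [Field K] [Algebra k K] [Algebra K0 K], K →
      Subfield (AlgebraicClosure K)) (c : k), c ≠ 0 → OthG (k := k) ℓ h N c →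
      ∃ Φ : (E ≃ₐ[k] E) →* (U ≃+* U), Act (K0 := K0) ℓ r c Φ := by
    rintro N c hc ⟨K, j1, j2, j3, j4, y, hy, s, -⟩
    obtain ⟨Φ, hΦ, -⟩ := hTr c hc K y hy s
    exact ⟨Φ, hΦ⟩
  by_cases hR : ∃ b : GBr k (AlgebraicClosure k) ℓ h, RatG b
  · by_cases hA : ∃ (c₀ : k) (Φ₀ : (E ≃ₐ[k] E) →* (U ≃+* U)), c₀ ≠ 0 ∧
        Act (K0 := K0) ℓ r c₀ Φ₀
    · obtain ⟨c₀, Φ₀, hc₀, hΦ₀⟩ := hA
      obtain ⟨h3, h4, R, hRS, hRP⟩ := hRSG k K0 E U ℓ h r hℓ hmu geo c₀ Φ₀ hc₀ hΦ₀ hN hR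
      constructor
      · intro hℓ2 m
        refine PDL.rare_mono (hGEN k K0 E U ℓ h r hℓ hℓ2 hmu geo R hRS
          (hFOUR k K0 E U ℓ h r hℓ hℓ2 hmu geo h3 h4) m) fun c hc hO => ?_
        obtain ⟨K, j1, j2, j3, j4, y, hy, s, hs⟩ := hO
        obtain ⟨Φ, hΦ, hQ, -⟩ := hTr c hc K y hy s
        refine ⟨Φ, hΦ, ?_⟩
        rintro ⟨b, hb, Q, hbQ, hm⟩
        obtain ⟨a, ha, haP⟩ := hRP b hb
        exact hs a ha (hQ m Q hm b a.P hbQ haP)
      · refine PDL.rare_mono (hGE2 k K0 E U ℓ h r hℓ hmu geo R hRS) fun c hc hO => ?_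
        obtain ⟨K, j1, j2, j3, j4, y, hy, s, hs⟩ := hO
        obtain ⟨Φ, hΦ, -, hQ⟩ := hTr c hc K y hy s
        refine ⟨Φ, hΦ, ?_⟩
        rintro ⟨b, hb, Q, hbQ, hm⟩
        obtain ⟨a, ha, haP⟩ := hRP b hb
        exact hs a ha (hQ Q hm b a.P hbQ haP)
    · have hE : ∀ (N : ∀ (K : Type) [Field K] [Algebra k K] [Algebra K0 K], K →
          Subfield (AlgebraicClosure K)), PD.Rare ℓ (OthG (k := k) ℓ h N) := fun N =>
        rare_empty77 fun c hc hO => by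
          obtain ⟨Φ, hΦ⟩ := hact N c hc hO
          exact hA ⟨c, Φ, hc, hΦ⟩
      exact ⟨fun _ m => hE _, hE _⟩
  · have hE : ∀ (N : ∀ (K : Type) [Field K] [Algebra k K] [Algebra K0 K], K →
        Subfield (AlgebraicClosure K)), PD.Rare ℓ (OthG (k := k) ℓ h N) := fun N =>
      PDL.rare_mono (hNOG k K0 E U ℓ h r hℓ hmu hG geo hR) fun c hc hO => hact N c hc hO
    exact ⟨fun _ m => hE _, hE _⟩

end Pool.Agent.PRG
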