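import Pool.Agent.Helper20.PL.TRG2
import Pool.Agent.Helper28.ML.Z
import Pool.Agent.Helper29.PLG.GE2
import Pool.Agent.Helper29.PLG.YLV
import Pool.Agent.Helper45.PLG.GEN
import Pool.Agent.Helper59.PLG.Four
import Pool.Agent.Helper77.PLG.RareG
import Pool.Agent.Helper90.PLG.RSG
import Pool.Agent.Helper97.PL.AllA

/-!
# Project PL, version 7 (MP_e66f84_ag): assembly
-/

set_option autoImplicit false

namespace Pool.Agent.PRG

/-- the level `YL`, all primes -/
theorem ge2A : StmtGE2 := gE2 PD.stmtLVL PRL.fclA yLV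

/-- the tower, `ℓ` odd -/
theorem genA : StmtGEN := gEN yLV ge2A PRL.plfA

/-- **THE THEOREM FOR CYCLIC COVERS OF ANY CURVE.** -/
theorem rareG : StmtRareG :=
  rareG_of genA ge2A (fOUR ML.z yLV) rSGA (nOG PRL.nONE) tRG

end Pool.Agent.PRG
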